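import Pool.Agent.Lib.Helper7.Heller6
import Pool.Agent.Lib.H73H.F1

set_option autoImplicit false

namespace Pool.Agent.Results.MP_c07b9b_co.SquarePlusLinear

open Matrix HellerS

/-- all minors of `M` are at most one in absolute value -/
def TotallyOneSubmodular {m n : ℕ} (M : Matrix (Fin m) (Fin n) ℝ) : Prop :=
  ∀ (k : ℕ) (r : Fin k → Fin m) (c : Fin k → Fin n), Function.Injective r →
    Function.Injective c → |(M.submatrix r c).det| ≤ 1

/-- the matrix `t + A`, whose columns are the columns of `A` shifted by the vector `t` -/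
def shiftBy {m n : ℕ} (t : Fin m → ℝ) (A : Matrix (Fin m) (Fin n) ℤ) :
    Matrix (Fin m) (Fin n) ℝ := Matrix.of fun i j => t i + (A i j : ℝ)

/-- there are a nonzero `t` in `[0,1)^m` and a matrix `A` with entries in `{-1,0,1}` and `n`
pairwise distinct columns such that `t + A` is totally 1-submodular -/
def Admissible (m n : ℕ) : Prop :=
  ∃ (t : Fin m → ℝ) (A : Matrix (Fin m) (Fin n) ℤ),
    (∀ i, 0 ≤ t i ∧ t i < 1) ∧ t ≠ 0 ∧ (∀ i j, A i j = -1 ∨ A i j = 0 ∨ A i j = 1) ∧
    (∀ j j', j ≠ j' → ∃ i, A i j ≠ A i j') ∧ TotallyOneSubmodular (shiftBy t A)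

/-- the shifted Heller constant -/
noncomputable def shiftedHeller (m : ℕ) : ℕ := sSup {n | Admissible m n}

/-- the upper bound for admissible numbers of columns -/
lemma upper {m n : ℕ} (hm : 1 ≤ m) (h : Admissible m n) :
    n ≤ m ^ 2 + (2 + 2 * Pool.Agent.Lib.H73H.CN 4) * m := by
  classical
  obtain ⟨t, A, ht, -, hA, hdist, hTS⟩ := h
  have : Nonempty (Fin m) := ⟨⟨0, hm⟩⟩
  let col : Fin n → (Fin m → ℝ) := fun j i => t i + (A i j : ℝ)
  have hinj : Function.Injective col := by
    intro j j' hjj
    by_contra hne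
    obtain ⟨i, hi⟩ := hdist j j' hne
    apply hi
    have := congrFun hjj i
    simp only [col] at this
    have h2 : (A i j : ℝ) = A i j' := by linarith
    exact_mod_cast h2
  let M : Finset (Fin m → ℝ) := Finset.univ.image col
  have hM : M.card = n := by
    rw [Finset.card_image_of_injective _ hinj, Finset.card_univ, Fintype.card_fin]
  have hTS' : TS (M : Set (Fin m → ℝ)) := by
    intro k f c hc
    have hc' : ∀ j, ∃ l, col l = c j := by
      intro j
      obtain ⟨l, _, hl⟩ := Finset.mem_image.1 (Finset.mem_coe.1 (hc j))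
      exact ⟨l, hl⟩
    choose l hl using hc'
    by_cases hf : Function.Injective f
    · by_cases hl' : Function.Injective l
      · have h1 := hTS k f l hf hl'
        have h2 : (shiftBy t A).submatrix f l = Matrix.of fun i j => c j (f i) := by
          ext i j
          rw [Matrix.of_apply, ← hl j]
          rfl
        rw [← h2]
        exact h1
      · have h0 : (Matrix.of fun i j => c j (f i)).det = 0 := by
          simp only [Function.Injective] at hl'
          push Not at hl'
          obtain ⟨j, j', hjj, hne⟩ := hl'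
          apply Matrix.det_zero_of_column_eq hne
          intro i
          rw [Matrix.of_apply, Matrix.of_apply, ← hl j, ← hl j', hjj]
        rw [h0]; simp
    · have h0 : (Matrix.of fun i j => c j (f i)).det = 0 := by
        simp only [Function.Injective] at hf
        push Not at hf
        obtain ⟨i, i', hii, hne⟩ := hf
        apply Matrix.det_zero_of_row_eq hne
        funext j
        rw [Matrix.of_apply, Matrix.of_apply, hii]
      rw [h0]; simp
  have hval : ∀ c ∈ M, ∀ r, Al (t r) (c r) := by
    intro c hc r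
    obtain ⟨j, _, rfl⟩ := Finset.mem_image.1 hc
    have h1 : |t r + (A r j : ℝ)| ≤ 1 := by
      have h2 := hTS 1 (fun _ => r) (fun _ => j) (fun a b _ => Subsingleton.elim a b)
        (fun a b _ => Subsingleton.elim a b)
      rw [Matrix.det_fin_one] at h2
      exact h2
    have h3 := ht r
    by_cases h0 : t r = 0
    · right
      refine ⟨h0, ?_⟩
      rcases hA r j with h | h | h
      · left; simp [col, h0, h]
      · right; left; simp [col, h0, h]
      · right; right; simp [col, h0, h]
    · left
      refine ⟨h0, ?_⟩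
      have hpos : 0 < t r := lt_of_le_of_ne h3.1 (Ne.symm h0)
      rcases hA r j with h | h | h
      · right; simp only [col, h]; push_cast; ring
      · left; simp only [col, h]; push_cast; ring
      · exfalso
        rw [h] at h1
        push_cast at h1
        have := (abs_le.1 h1).2
        linarith
  have h := Pool.Agent.Lib.H73H.upper_main hTS' hval (fun r => ht r)
  rw [hM, Fintype.card_fin] at h
  exact h

/-- the index set of the columns in the lower bound construction -/
abbrev Idx (k : ℕ) : Type := Option {p : Fin (k + 1) × Fin (k + 1) // p.1 ≠ p.2}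

lemma card_idx (k : ℕ) : Fintype.card (Idx k) = (k + 1) * k + 1 := by
  have h1 : Fintype.card {p : Fin (k + 1) × Fin (k + 1) // p.1 ≠ p.2} = (k + 1) * k := by
    have h2 : Fintype.card {p : Fin (k + 1) × Fin (k + 1) // p.1 ≠ p.2} =
        (Finset.univ : Finset (Fin (k + 1))).offDiag.card := by
      rw [Fintype.card_subtype]
      congr 1
      ext p
      simp [Finset.mem_offDiag]
    rw [h2, Finset.offDiag_card, Finset.card_univ, Fintype.card_fin]
    rw [← Nat.mul_sub_one]
    rfl
  rw [Fintype.card_option, h1]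

/-- the first endpoint of a column index -/
def fa (k : ℕ) : Idx k → Fin (k + 1)
  | none => Fin.last k
  | some p => p.1.1

/-- the second endpoint of a column index -/
def fb (k : ℕ) : Idx k → Fin (k + 1)
  | none => Fin.last k
  | some p => p.1.2

/-- entries of the integer matrix of the lower bound -/
def ent (k : ℕ) (i : Fin (k + 1)) (q : Idx k) : ℤ :=
  if i = Fin.last k then 0 else (if i = fa k q then 1 else 0) - (if i = fb k q then 1 else 0)

lemma ent_cases (k : ℕ) (i : Fin (k + 1)) (q : Idx k) :
    ent k i q = -1 ∨ ent k i q = 0 ∨ ent k i q = 1 := by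
  unfold ent
  split_ifs <;> simp

lemma ent_inj (k : ℕ) {q q' : Idx k} (h : ∀ i, ent k i q = ent k i q') : q = q' := by
  have key : ∀ q : Idx k, (q ≠ none → fa k q ≠ fb k q) := by
    rintro (_ | ⟨p, hp⟩) h
    · exact absurd rfl h
    · exact hp
  have hone : ∀ (q : Idx k) (i : Fin (k + 1)), i ≠ Fin.last k → q ≠ none →
      (ent k i q = 1 ↔ i = fa k q) := by
    intro q i hi hq
    unfold ent
    rw [if_neg hi]
    constructor
    · intro h
      by_contra hne
      rw [if_neg hne] at h
      split_ifs at h <;> norm_num at h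
    · intro h
      rw [if_pos h, if_neg]
      · norm_num
      · rw [h]; exact key q hq
  have hmone : ∀ (q : Idx k) (i : Fin (k + 1)), i ≠ Fin.last k → q ≠ none →
      (ent k i q = -1 ↔ i = fb k q) := by
    intro q i hi hq
    unfold ent
    rw [if_neg hi]
    constructor
    · intro h
      by_contra hne
      rw [if_neg hne] at h
      split_ifs at h <;> norm_num at h
    · intro h
      rw [if_pos h, if_neg]
      · norm_num
      · rw [h]; exact (key q hq).symm
  have hnone : ∀ i, ent k i none = 0 := by
    intro i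
    unfold ent
    split_ifs with h1 h2 <;> simp_all [fa, fb]
  have hnz : ∀ q : Idx k, q ≠ none → ∃ i, ent k i q ≠ 0 := by
    intro q hq
    by_cases ha : fa k q = Fin.last k
    · have hb : fb k q ≠ Fin.last k := fun h => key q hq (ha.trans h.symm)
      refine ⟨fb k q, ?_⟩
      rw [(hmone q _ hb hq).2 rfl]; norm_num
    · refine ⟨fa k q, ?_⟩
      rw [(hone q _ ha hq).2 rfl]; norm_num
  by_cases hq : q = none
  · subst hq
    by_contra hne
    obtain ⟨i, hi⟩ := hnz q' (Ne.symm hne)
    exact hi ((h i).symm.trans (hnone i))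
  by_cases hq' : q' = none
  · subst hq'
    obtain ⟨i, hi⟩ := hnz q hq
    exact absurd ((h i).trans (hnone i)) hi
  have ea : fa k q = fa k q' := by
    by_cases ha : fa k q = Fin.last k
    · by_contra hne
      have ha' : fa k q' ≠ Fin.last k := fun h => hne (ha.trans h.symm)
      have h1 := (hone q' _ ha' hq').2 rfl
      rw [← h] at h1
      exact hne ((hone q _ ha' hq).1 h1).symm
    · have h1 := (hone q _ ha hq).2 rfl
      rw [h] at h1
      exact (hone q' _ ha hq').1 h1
  have eb : fb k q = fb k q' := by
    by_cases ha : fb k q = Fin.last k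
    · by_contra hne
      have ha' : fb k q' ≠ Fin.last k := fun h => hne (ha.trans h.symm)
      have h1 := (hmone q' _ ha' hq').2 rfl
      rw [← h] at h1
      exact hne ((hmone q _ ha' hq).1 h1).symm
    · have h1 := (hmone q _ ha hq).2 rfl
      rw [h] at h1
      exact (hmone q' _ ha hq').1 h1
  rcases q with _ | ⟨⟨a, b⟩, hp⟩
  · exact absurd rfl hq
  rcases q' with _ | ⟨⟨a', b'⟩, hp'⟩
  · exact absurd rfl hq'
  simp only [fa, fb] at ea eb
  subst ea
  subst eb
  rfl

/-- the lower bound construction -/
lemma lower (k : ℕ) : Admissible (k + 1) ((k + 1) * k + 1) := by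
  classical
  let e : Fin ((k + 1) * k + 1) ≃ Idx k := Fintype.equivOfCardEq (by
    rw [card_idx, Fintype.card_fin])
  set ε : ℝ := 1 / (((k + 1).factorial : ℝ) + 1) with hε
  have hfac : (1 : ℝ) ≤ ((k + 1).factorial : ℝ) := by exact_mod_cast Nat.factorial_pos (k + 1)
  have hεpos : 0 < ε := by positivity
  have hεlt : ε < 1 := by
    rw [hε, div_lt_one (by positivity)]
    linarith
  have hεf : ε * ((k + 1).factorial : ℝ) ≤ 1 := by
    rw [hε, one_div, inv_mul_le_one₀ (by positivity)]
    linarith
  refine ⟨fun i => if i = Fin.last k then ε else 0, Matrix.of fun i j => ent k i (e j),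
    ?_, ?_, ?_, ?_, ?_⟩
  · intro i
    simp only
    split_ifs
    · exact ⟨hεpos.le, hεlt⟩
    · exact ⟨le_rfl, one_pos⟩
  · intro h
    have := congrFun h (Fin.last k)
    simp only [if_true, Pi.zero_apply] at this
    linarith
  · intro i j
    exact ent_cases k i (e j)
  · intro j j' hne
    by_contra hcon
    push Not at hcon
    exact hne (e.injective (ent_inj k hcon))
  · intro s r c hr hc
    have hs : s ≤ k + 1 := by
      have := Fintype.card_le_of_injective r hr
      simpa using this
    -- the network matrix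
    have hnet := network_det s r (fun j => fa k (e (c j))) (fun j => fb k (e (c j))) hr
    by_cases hlast : ∃ i0, r i0 = Fin.last k
    · obtain ⟨i0, hi0⟩ := hlast
      -- the last row is `ε` times the all ones row
      set B : Matrix (Fin s) (Fin s) ℝ := Matrix.of fun i j =>
        if i = i0 then 1 else (ent k (r i) (e (c j)) : ℝ) with hB
      have hM : (shiftBy (fun i => if i = Fin.last k then ε else 0)
          (Matrix.of fun i j => ent k i (e j))).submatrix r c =
          B.updateRow i0 (ε • B i0) := by
        ext i j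
        by_cases hi : i = i0
        · subst hi
          rw [Matrix.updateRow_self]
          simp [shiftBy, hB, hi0, ent]
        · rw [Matrix.updateRow_ne hi]
          have hri : r i ≠ Fin.last k := fun h => hi (hr (h.trans hi0.symm))
          simp [shiftBy, hB, hri, hi]
      rw [hM, Matrix.det_updateRow_smul, Matrix.updateRow_eq_self, abs_mul, abs_of_pos hεpos]
      have hBle : |B.det| ≤ ((k + 1).factorial : ℝ) := by
        have h1 := Matrix.det_le (A := B) (abv := AbsoluteValue.abs) (x := (1 : ℝ)) (by
          intro i j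
          change |B i j| ≤ 1
          simp only [hB, Matrix.of_apply]
          split_ifs
          · simp
          · rcases ent_cases k (r i) (e (c j)) with h | h | h <;> rw [h] <;> norm_num)
        change |B.det| ≤ _ at h1
        rw [Fintype.card_fin, one_pow, nsmul_eq_mul, mul_one] at h1
        refine h1.trans ?_
        exact_mod_cast Nat.factorial_le hs
      calc ε * |B.det| ≤ ε * ((k + 1).factorial : ℝ) := by gcongr
        _ ≤ 1 := hεf
    · push Not at hlast
      have hM : (shiftBy (fun i => if i = Fin.last k then ε else 0)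
          (Matrix.of fun i j => ent k i (e j))).submatrix r c =
          Matrix.of fun i j => (if r i = fa k (e (c j)) then (1 : ℝ) else 0) -
            (if r i = fb k (e (c j)) then 1 else 0) := by
        ext i j
        simp [shiftBy, ent, hlast i]
      rw [hM]
      exact hnet

/-- The shifted Heller constant is `m ^ 2 + O(m)`. -/
theorem result :
    (∃ C : ℕ, ∀ m : ℕ, 1 ≤ m → IsGreatest {n | Admissible m n} (shiftedHeller m) ∧
      m * (m - 1) + 1 ≤ shiftedHeller m ∧ shiftedHeller m ≤ m ^ 2 + C * m) ∧
    Filter.Tendsto (fun m : ℕ => (shiftedHeller m : ℝ) / (m : ℝ) ^ 2) Filter.atTop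
      (nhds 1) := by
  have hbdd : ∀ m, 1 ≤ m → BddAbove {n | Admissible m n} := fun m hm =>
    ⟨_, fun n hn => upper hm hn⟩
  have hlow : ∀ m, 1 ≤ m → Admissible m (m * (m - 1) + 1) := by
    intro m hm
    obtain ⟨k, rfl⟩ : ∃ k, m = k + 1 := ⟨m - 1, by omega⟩
    exact lower k
  obtain ⟨C, hC⟩ : ∃ C : ℕ, ∀ m : ℕ, 1 ≤ m → IsGreatest {n | Admissible m n} (shiftedHeller m) ∧
      m * (m - 1) + 1 ≤ shiftedHeller m ∧ shiftedHeller m ≤ m ^ 2 + C * m := by
    refine ⟨2 + 2 * Pool.Agent.Lib.H73H.CN 4, fun m hm => ⟨⟨?_, ?_⟩, ?_, ?_⟩⟩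
    · exact Nat.sSup_mem ⟨_, hlow m hm⟩ (hbdd m hm)
    · intro n hn
      exact le_csSup (hbdd m hm) hn
    · exact le_csSup (hbdd m hm) (hlow m hm)
    · exact csSup_le' fun n hn => upper hm hn
  refine ⟨⟨C, hC⟩, ?_⟩
  have h1 : Filter.Tendsto (fun m : ℕ => 1 - 1 / (m : ℝ)) Filter.atTop (nhds 1) := by
    have := tendsto_one_div_atTop_nhds_zero_nat (𝕜 := ℝ)
    simpa using this.const_sub 1
  have h2 : Filter.Tendsto (fun m : ℕ => 1 + (C : ℝ) * (1 / (m : ℝ))) Filter.atTop (nhds 1) := by
    have := (tendsto_one_div_atTop_nhds_zero_nat (𝕜 := ℝ)).const_mul (C : ℝ)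
    simpa using this.const_add 1
  refine tendsto_of_tendsto_of_tendsto_of_le_of_le' h1 h2 ?_ ?_
  · filter_upwards [Filter.eventually_ge_atTop 1] with m hm
    obtain ⟨-, h3, -⟩ := hC m hm
    have hm' : (1 : ℝ) ≤ m := by exact_mod_cast hm
    have h4 : (m : ℝ) * (m - 1) + 1 ≤ (shiftedHeller m : ℝ) := by
      have h5 : ((m * (m - 1) + 1 : ℕ) : ℝ) ≤ (shiftedHeller m : ℝ) := by exact_mod_cast h3
      rw [Nat.cast_add, Nat.cast_mul, Nat.cast_sub hm] at h5
      simpa using h5
    rw [le_div_iff₀ (by positivity)]
    have h6 : (1 - 1 / (m : ℝ)) * (m : ℝ) ^ 2 = (m : ℝ) * (m - 1) := by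
      field_simp
    rw [h6]
    linarith
  · filter_upwards [Filter.eventually_ge_atTop 1] with m hm
    obtain ⟨-, -, h3⟩ := hC m hm
    have hm' : (1 : ℝ) ≤ m := by exact_mod_cast hm
    have h4 : (shiftedHeller m : ℝ) ≤ (m : ℝ) ^ 2 + C * m := by exact_mod_cast h3
    rw [div_le_iff₀ (by positivity)]
    have h6 : (1 + (C : ℝ) * (1 / (m : ℝ))) * (m : ℝ) ^ 2 = (m : ℝ) ^ 2 + C * m := by
      field_simp
    rw [h6]
    exact h4

end Pool.Agent.Results.MP_c07b9b_co.SquarePlusLinear
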